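import Pool.Agent.R782.Bal.Main

/-!
# Betti numbers above the middle dimension for coloured complexes in spheres

Let `X` be a finite simplicial complex embedded in the sphere of dimension `2 d`, and colour its vertices by finitely
many colours, with any number of monochromatic simplices. Let `cs X col` be the graph of the subdivision of `X` in
which only the monochromatic simplices are (barycentrically) subdivided; if the missing faces of `X` have at most two
colours (in particular if `X` is a flag complex) then this is a flag complex homeomorphic to `X`. If `X` is
piecewise linearly embedded then the Davis complex of the right-angled Coxeter group `W` of this graph thickens to a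
contractible `(2 d + 1)`-manifold with boundary on which `W` acts properly and cocompactly, and the torsion-free
subgroups of finite index of `W` are the fundamental groups of compact aspherical `(2 d + 1)`-manifolds.

The colouring is called small if there are numbers `a c` with sum at most `d + 1` such that the simplices with all
vertices of colour `c` have at most `2 a c` vertices. Examples:

* proper colourings of flag complexes by `d + 1` colours (then `cs X col` is `X`);
* colourings of flag complexes by `d + 1` colours without monochromatic triangles (the monochromatic edges are
  subdivided);
* one colour: the barycentric subdivision of an arbitrary finite simplicial complex in the sphere of dimension `2 d`.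

The proof deduces the vanishing from the vanishing of the mod `2` van Kampen obstruction of the deleted join of a
`(d + 1)`-coloured full subcomplex.
-/

set_option autoImplicit false

namespace Pool.Agent.Results.MP_8fe54c_gt.ColouredSubdivisions

open Pool.Agent.W907.SG Pool.Agent.Y132.SI Pool.Agent.R782.Bal

/-- Let `X` be a finite simplicial complex embedded in the sphere of dimension `2 d`, with a small colouring of its
vertices. (1) There are no nonzero `ℓ²` harmonic `i`-chains on the Davis complex of the right-angled Coxeter group
`W` of `cs X col` for `i > d`. (2) For each `ε > 0` there is a finite set `E` of nontrivial elements of `W` such that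
for every subgroup `H` of finite index which contains no conjugate of an element of `E`, and for all `i > d`, the
`i`-th real Betti number of `H` (the dimension of the space of the `H`-invariant real harmonic `i`-chains of the
Davis complex) is at most `ε [W : H]`. -/
theorem result : ∀ (d N k : ℕ) (X : Finset (Finset (Fin N))) (col : Fin N → Fin k),
    (∀ σ ∈ X, ∀ τ : Finset (Fin N), τ ⊆ σ → τ ∈ X) → Small d X col → EmbX d X col →
    ∀ [Fintype (MF X col)] [LinearOrder (MF X col)],
    (∀ i : ℕ, d < i → L2Van (cs X col) i) ∧
    ∀ ε : ℝ, 0 < ε → ∃ E : Finset (W (cs X col)), (1 : W (cs X col)) ∉ E ∧
      ∀ H : Subgroup (W (cs X col)), H.FiniteIndex → (∀ g ∈ E, ∀ x : W (cs X col), x * g * x⁻¹ ∉ H) →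
        ∀ i : ℕ, d < i → (Module.finrank ℝ (HInv (cs X col) H i) : ℝ) ≤ ε * H.index := by
  intro d N k X col hX hs hE _ _
  exact ⟨fun i hi => above_cs hX hs hE i hi, fun ε hε => growth_cs hX hs hE ε hε⟩

end Pool.Agent.Results.MP_8fe54c_gt.ColouredSubdivisions
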