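import Pool.Agent.R703.MO.Main

/-!
# Betti numbers above the middle dimension: the class `MQ b` with the relative Morse rules

Let `L` be the flag complex of the finite graph `G`, piecewise linearly embedded in the sphere of dimension `n - 1`.
The Davis complex of the right-angled Coxeter group `W G` thickens to a contractible `n`-manifold with boundary on
which `W G` acts properly and cocompactly, and the torsion-free subgroups of finite index of `W G` are the fundamental
groups of compact aspherical `n`-manifolds.

The class `MQ b` of finite graphs, for which we show that the `ℓ²`-homology vanishes in the degrees `≥ b`, is the
smallest class which contains the earlier class `BR` (all graphs whose flag complex is coloured by `d + 1` colours and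
embedded in the sphere of dimension `2 d`, for `b = d + 1`, and the earlier class `AR n` for `b = n / 2 + 1`), and
which is closed under the operations of the earlier class `SQ` and under the two Morse rules:

* Relative Morse rule. Let `B` be a set of vertices (which may be empty), `W G` acts on a finite set `X` such that the
  elements of `B` act trivially, and the edges of `X` with labels outside `B` are oriented such that opposite edges of
  squares are parallel. For each `x ∈ X` let `U x` consist of the elements of `B` and of the ascending directions at
  `x`. The sets `U x` have to be dismantled by removing vertices `v ∉ B` and passing to the links (where the degree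
  is lowered by one), until the set is a cone with an apex outside `B`, or does not meet `B` and has no reduced real
  homology in the degrees `≥ k - 1`, or is contained in `B` and is in the class `k` by the induction.
* Morse rule with flat directions: a circle-valued Morse function which may be constant on some of the cubes, and the
  ascending links of the flat cubes `S` have no reduced real homology in the degrees `≥ b - |S| - 1`.
-/

set_option autoImplicit false

namespace Pool.Agent.Results.MP_8fe54c_gt.MorseClass

open Pool.Agent.W907.SG Pool.Agent.Y132.SI Pool.Agent.R703.MO

/-- Let the finite graph `G` be in the class `MQ b`. (1) There are no nonzero `ℓ²` harmonic `i`-chains on the Davis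
complex of the right-angled Coxeter group `W G` for `i ≥ b`. (2) For each `ε > 0` there is a finite set `E` of
nontrivial elements of `W G` such that for every subgroup `H` of finite index which contains no conjugate of an
element of `E`, and for all `i ≥ b`, the `i`-th real Betti number of `H` (the dimension of the space of the
`H`-invariant real harmonic `i`-chains of the Davis complex) is at most `ε [W G : H]`. -/
theorem result : ∀ (b : ℕ) (V : Type) [Fintype V] [LinearOrder V] (G : SimpleGraph V), MQ b G →
    (∀ i : ℕ, b ≤ i → L2Van G i) ∧
    ∀ ε : ℝ, 0 < ε → ∃ E : Finset (W G), (1 : W G) ∉ E ∧
      ∀ H : Subgroup (W G), H.FiniteIndex → (∀ g ∈ E, ∀ x : W G, x * g * x⁻¹ ∉ H) →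
        ∀ i : ℕ, b ≤ i → (Module.finrank ℝ (HInv G H i) : ℝ) ≤ ε * H.index := by
  intro b V _ _ G h
  have h1 : ∀ i : ℕ, b ≤ i → L2Van G i := fun i hi => above_MQ h i hi
  exact ⟨h1, fun ε hε => growth_set G (fun i => b ≤ i) h1 ε hε⟩

end Pool.Agent.Results.MP_8fe54c_gt.MorseClass
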